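import Pool.Agent.Results.MP_332571_pr.TowerGrowth
import Pool.Agent.Y14.TW.Main

/-!
# The tower height of the `d`-neighbour threshold size

`f(d)` is at least a tower of `2`s of height `d/2 - 5 d^{3/4}` and at most a tower of height
`d + log* (8 d) + 1`.
-/

set_option autoImplicit false

namespace Pool.Agent.Results.MP_332571_pr.TowerHeight

open Finset Filter Pool.Agent.Helper91.BP Pool.Agent.Y14.TW

theorem pc_ge' {d n : ℕ} {a : ℝ} (h : ∀ p : ℝ, 0 ≤ p → p ≤ a →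
    Pr p (fun A : Finset (Grid d n) => Percolates d A) < 1 / 2) : a ≤ pc d n d := by
  unfold pc
  apply le_csInf
  · exact ⟨1, by norm_num, by norm_num, TowerGrowth.perc_one d n⟩
  · rintro p ⟨h0, h1, h2⟩
    by_contra hcon
    push Not at hcon
    have := h p h0 hcon.le
    linarith

/-- the explicit bounds -/
theorem bounds : ∃ d₀ : ℕ, ∀ d : ℕ, d₀ ≤ d →
    IsLeast {n : ℕ | 1 ≤ n ∧ pc d n d ≤ 1 / 4} (f d) ∧
    T ⌊(d : ℝ) / 2 - 5 * (d : ℝ) ^ (3 / 4 : ℝ)⌋₊ < f d ∧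
    ∀ m : ℕ, 8 * d ≤ T m → f d ≤ T (d + m + 1) := by
  obtain ⟨d0, hlow⟩ := lower2
  refine ⟨max d0 8, ?_⟩
  intro d hd
  have hd0 : d0 ≤ d := le_trans (le_max_left _ _) hd
  have hd8 : 8 ≤ d := le_trans (le_max_right _ _) hd
  have hmem : (2 ^ sc d d) ∈ {n : ℕ | 1 ≤ n ∧ pc d n d ≤ 1 / 4} :=
    ⟨Nat.one_le_two_pow, TowerGrowth.pc_le (perc_prob (by omega))⟩
  have hne : {n : ℕ | 1 ≤ n ∧ pc d n d ≤ 1 / 4}.Nonempty := ⟨_, hmem⟩
  have hleast : IsLeast {n : ℕ | 1 ≤ n ∧ pc d n d ≤ 1 / 4} (f d) := by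
    unfold f
    exact ⟨Nat.sInf_mem hne, fun n hn => Nat.sInf_le hn⟩
  refine ⟨hleast, ?_, ?_⟩
  · obtain ⟨-, N, hN, hprob⟩ := hlow d hd0
    refine lt_of_le_of_lt (T_mono (Nat.floor_le_of_le hN)) ?_
    by_contra hcon
    push Not at hcon
    obtain ⟨h1, h2⟩ := hleast.1
    have h3 := pc_ge' (d := d) (n := f d) (hprob (f d) h1 hcon)
    have h4 : (0 : ℝ) < 1 / (4 * (d : ℝ)) := by
      have : (0 : ℝ) < d := by
        have : 0 < d := by omega
        exact_mod_cast this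
      positivity
    linarith
  · intro m hm
    calc f d ≤ 2 ^ sc d d := hleast.2 hmem
      _ ≤ 2 ^ T (m + d) := by
          apply Nat.pow_le_pow_right (by norm_num)
          have h1 := sc_le2 (by omega) hm d
          have h2 : sc d d ≤ 8 * d * sc d d := Nat.le_mul_of_pos_left _ (by omega)
          omega
      _ = T (d + m + 1) := by rw [add_comm m d]; rfl

/-- the asymptotic form -/
theorem constants (ε : ℝ) (hε : 0 < ε) : ∀ᶠ d : ℕ in atTop,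
    T ⌊(1 / 2 - ε) * (d : ℝ)⌋₊ < f d ∧ f d ≤ T ⌈(1 + ε) * (d : ℝ)⌉₊ := by
  obtain ⟨d0, hd0⟩ := bounds
  have hl2 : 0 < Real.log 2 := Real.log_pos (by norm_num)
  -- growth facts
  have h1 : (fun x : ℝ => x ^ 1) =o[atTop] fun x => Real.exp (ε * Real.log 2 * x) :=
    isLittleO_pow_exp_pos_mul_atTop 1 (by positivity)
  have h2 := (h1.def (c := 1 / 64) (by norm_num))
  have h3 := tendsto_natCast_atTop_atTop (R := ℝ) |>.eventually h2
  have h4 : Tendsto (fun d : ℕ => ((d : ℝ)) ^ (1 / 4 : ℝ)) atTop atTop :=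
    (tendsto_rpow_atTop (by norm_num : (0 : ℝ) < 1 / 4)).comp tendsto_natCast_atTop_atTop
  have h5 := h4.eventually_ge_atTop (5 / ε)
  have h6 : Tendsto (fun d : ℕ => ε * (d : ℝ)) atTop atTop :=
    Tendsto.const_mul_atTop hε tendsto_natCast_atTop_atTop
  filter_upwards [h3, h5, h6.eventually_ge_atTop 3, eventually_ge_atTop (max d0 1)]
    with d e1 e2 e3 e4
  have hd0' : d0 ≤ d := le_trans (le_max_left _ _) e4
  have hd1 : 1 ≤ d := le_trans (le_max_right _ _) e4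
  have hdR : (1 : ℝ) ≤ d := by exact_mod_cast hd1
  obtain ⟨-, b1, b2⟩ := hd0 d hd0'
  constructor
  · refine lt_of_le_of_lt (T_mono (Nat.floor_mono ?_)) b1
    have e5 : (d : ℝ) = (d : ℝ) ^ (1 / 4 : ℝ) * (d : ℝ) ^ (3 / 4 : ℝ) := by
      rw [← Real.rpow_add (by linarith)]
      norm_num
    have e6 : 5 ≤ ε * (d : ℝ) ^ (1 / 4 : ℝ) := by
      rw [div_le_iff₀ hε] at e2
      linarith
    have e7 : 0 < (d : ℝ) ^ (3 / 4 : ℝ) := by positivity
    have e8 : 5 * (d : ℝ) ^ (3 / 4 : ℝ) ≤ ε * d := by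
      calc 5 * (d : ℝ) ^ (3 / 4 : ℝ) ≤ (ε * (d : ℝ) ^ (1 / 4 : ℝ)) * (d : ℝ) ^ (3 / 4 : ℝ) :=
            mul_le_mul_of_nonneg_right e6 e7.le
        _ = ε * ((d : ℝ) ^ (1 / 4 : ℝ) * (d : ℝ) ^ (3 / 4 : ℝ)) := by ring
        _ = ε * d := by rw [← e5]
    linarith
  · obtain ⟨j, hj⟩ : ∃ j : ℕ, j = ⌊ε * (d : ℝ)⌋₊ := ⟨_, rfl⟩
    have hj1 : ε * (d : ℝ) < j + 1 := by rw [hj]; exact Nat.lt_floor_add_one _
    have hj2 : (j : ℝ) ≤ ε * d := by rw [hj]; exact Nat.floor_le (by positivity)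
    have hj3 : 3 ≤ j := by
      rw [hj]; exact Nat.le_floor (by exact_mod_cast e3)
    have hT : 8 * d ≤ T (j - 1) := by
      have e5 := two_pow_le_T (j - 2)
      rw [show j - 2 + 1 = j - 1 by omega] at e5
      refine le_trans ?_ e5
      rw [Real.norm_of_nonneg (by positivity), Real.norm_of_nonneg (Real.exp_pos _).le,
        pow_one] at e1
      have e6 : Real.exp (ε * Real.log 2 * d) ≤ 8 * 2 ^ (j - 2) := by
        have e7 : (8 : ℝ) * 2 ^ (j - 2) = Real.exp (((j : ℝ) + 1) * Real.log 2) := by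
          have : (8 : ℝ) * 2 ^ (j - 2) = 2 ^ (j + 1) := by
            rw [show (8 : ℝ) = 2 ^ 3 by norm_num, ← pow_add]
            congr 1
            omega
          rw [this]
          have h9 : ((j : ℝ) + 1) * Real.log 2 = ((j + 1 : ℕ) : ℝ) * Real.log 2 := by push_cast; ring
          rw [h9, Real.exp_nat_mul, Real.exp_log (by norm_num)]
        rw [e7]
        apply Real.exp_le_exp.2
        nlinarith
      have e8 : (8 * d : ℝ) ≤ 2 ^ (j - 2) := by nlinarith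
      exact_mod_cast e8
    refine (b2 (j - 1) hT).trans (T_mono ?_)
    have e5 : ((d + j : ℕ) : ℝ) ≤ (1 + ε) * (d : ℝ) := by
      push_cast
      linarith
    have e6 : d + j ≤ ⌈(1 + ε) * (d : ℝ)⌉₊ := by
      exact_mod_cast e5.trans (Nat.le_ceil _)
    omega

/-- **Theorem.** For all large `d` the number `f d` is a genuine least element,
`T ⌊d/2 - 5 d^{3/4}⌋ < f d`, and `f d ≤ T (d + m + 1)` for every `m` with `8 d ≤ T m` (so
`m = log* (8 d)` will do).  In particular, for every `ε > 0`,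
`T ⌊(1/2 - ε) d⌋ < f d ≤ T ⌈(1 + ε) d⌉` for all large `d`. -/
theorem result :
    (∃ d₀ : ℕ, ∀ d : ℕ, d₀ ≤ d →
      IsLeast {n : ℕ | 1 ≤ n ∧ pc d n d ≤ 1 / 4} (f d) ∧
      T ⌊(d : ℝ) / 2 - 5 * (d : ℝ) ^ (3 / 4 : ℝ)⌋₊ < f d ∧
      ∀ m : ℕ, 8 * d ≤ T m → f d ≤ T (d + m + 1)) ∧
    ∀ ε : ℝ, 0 < ε → ∀ᶠ d : ℕ in atTop,
      T ⌊(1 / 2 - ε) * (d : ℝ)⌋₊ < f d ∧ f d ≤ T ⌈(1 + ε) * (d : ℝ)⌉₊ :=
  ⟨bounds, constants⟩

end Pool.Agent.Results.MP_332571_pr.TowerHeight
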